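import Pool.Agent.H336R3.Main

set_option autoImplicit false

/-!
# Sparse random regular graphs are not reconstructable from their 3-neighbourhoods

Full answer (Q1 is true, with `c = 1/6`) to MP_ccfaf0_pr. The definitions `Reg`, `nbhd`, `NbhdIso`,
`Reconstructable` and `regProb` are in `Pool/Agent/H336R3/ShotDefs.lean`.
-/

namespace Pool.Agent.Results.MP_ccfaf0_pr.ThreeNeighbourhoods

open Filter Topology Pool.Agent.H336R3.Shot

/-- There is a constant `c ≥ 1/6` such that for every `ε > 0` and all sequences `n k → ∞`, `d k`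
with `n k * d k` even and `n^ε ≤ d ≤ n^(c-ε)` eventually, the uniformly random `d`-regular graph on
`n` vertices is a.a.s. not reconstructable from its `3`-neighbourhoods. -/
theorem result : ∃ c : ℝ, 1 / 6 ≤ c ∧ ∀ ε : ℝ, 0 < ε → ∀ n d : ℕ → ℕ, Tendsto n atTop atTop →
    (∀ᶠ k in atTop, Even (n k * d k)) →
    (∀ᶠ k in atTop, (n k : ℝ) ^ ε ≤ d k ∧ (d k : ℝ) ≤ (n k : ℝ) ^ (c - ε)) →
      Tendsto (fun k => regProb (n k) (d k) (fun G => ¬ Reconstructable 3 G)) atTop (𝓝 1) := by
  refine ⟨1 / 6, le_rfl, fun ε hε n d hn hev h => ?_⟩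
  refine not_rec_range (r := 3) (by norm_num) hε n d hn hev (h.mono fun k hk => hk.1)
    (h.mono fun k hk => ?_)
  have e : (1 : ℝ) / (2 * ((3 : ℕ) : ℝ)) - ε = 1 / 6 - ε := by norm_num
  rw [e]; exact hk.2

end Pool.Agent.Results.MP_ccfaf0_pr.ThreeNeighbourhoods
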